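import Mathlib
import Pool.Agent.helper79.Tw.Defs

set_option autoImplicit false

/-!
# Change of variables as an injective homomorphism of the groups of points
-/

namespace H25.Tw

open WeierstrassCurve WeierstrassCurve.Affine H48.CN H79.Tw

variable {A B C k r A' B' C' : ℚ}

lemma nonsing_cases {x y : ℚ} (h : (Wc A B C).Nonsingular x y) :
    2 * y ≠ 0 ∨ 3 * x ^ 2 + 2 * A * x + B ≠ 0 := by
  rw [WeierstrassCurve.Affine.nonsingular_iff] at h
  simp only [Wc] at h
  rcases h.2 with h2 | h2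
  · right
    intro h3
    apply h2
    linear_combination -h3
  · left
    intro h3
    apply h2
    linear_combination h3

lemma nonsing_map (hk : k ≠ 0) (hA : A' = A * k ^ 2 - 3 * r)
    (hB : B' = B * k ^ 4 - 2 * r * A * k ^ 2 + 3 * r ^ 2)
    (hC : C' = C * k ^ 6 - B * k ^ 4 * r + A * k ^ 2 * r ^ 2 - r ^ 3) {x y : ℚ}
    (h : (Wc A B C).Nonsingular x y) :
    (Wc A' B' C').Nonsingular (k ^ 2 * x + r) (k ^ 3 * y) := by
  have e := eqn_iff.1 h.1
  subst hA hB hC
  refine nonsing_of ?_ ?_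
  · linear_combination k ^ 6 * e
  · rcases nonsing_cases h with h2 | h2
    · left
      intro h3
      apply h2
      have h4 : k ^ 3 * (2 * y) = 0 := by linear_combination h3
      exact (mul_eq_zero.1 h4).resolve_left (pow_ne_zero 3 hk)
    · right
      intro h3
      apply h2
      have h4 : k ^ 4 * (3 * x ^ 2 + 2 * A * x + B) = 0 := by linear_combination h3
      exact (mul_eq_zero.1 h4).resolve_left (pow_ne_zero 4 hk)

/-- the map on points -/
noncomputable def psi (hk : k ≠ 0) (hA : A' = A * k ^ 2 - 3 * r)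
    (hB : B' = B * k ^ 4 - 2 * r * A * k ^ 2 + 3 * r ^ 2)
    (hC : C' = C * k ^ 6 - B * k ^ 4 * r + A * k ^ 2 * r ^ 2 - r ^ 3) :
    (Wc A B C).Point → (Wc A' B' C').Point
  | .zero => 0
  | .some _ _ h => Point.some _ _ (nonsing_map hk hA hB hC h)

lemma psi_add (hk : k ≠ 0) (hA : A' = A * k ^ 2 - 3 * r)
    (hB : B' = B * k ^ 4 - 2 * r * A * k ^ 2 + 3 * r ^ 2)
    (hC : C' = C * k ^ 6 - B * k ^ 4 * r + A * k ^ 2 * r ^ 2 - r ^ 3)
    (P Q : (Wc A B C).Point) :
    psi hk hA hB hC (P + Q) = psi hk hA hB hC P + psi hk hA hB hC Q := by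
  rcases P with _ | ⟨x₁, y₁, h₁⟩
  · change psi hk hA hB hC (0 + Q) = 0 + _
    rw [zero_add, zero_add]
  rcases Q with _ | ⟨x₂, y₂, h₂⟩
  · change psi hk hA hB hC (Point.some x₁ y₁ h₁ + 0) = psi hk hA hB hC (Point.some x₁ y₁ h₁) + 0
    rw [add_zero, add_zero]
  change _ = Point.some _ _ (nonsing_map hk hA hB hC h₁) +
    Point.some _ _ (nonsing_map hk hA hB hC h₂)
  by_cases h : x₁ = x₂ ∧ y₁ = -y₂
  · obtain ⟨rfl, hy⟩ := h
    rw [Point.add_of_Y_eq rfl (by rw [negY_eq]; exact hy),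
      Point.add_of_Y_eq rfl (by rw [negY_eq, hy]; ring)]
    rfl
  · obtain ⟨l, x₃, y₃, h₃, hs, r1, r2, r3, r4⟩ := add_rel h₁ h₂ h
    have hk2 : k ^ 2 ≠ 0 := pow_ne_zero 2 hk
    have hk3 : k ^ 3 ≠ 0 := pow_ne_zero 3 hk
    have h' : ¬(k ^ 2 * x₁ + r = k ^ 2 * x₂ + r ∧ k ^ 3 * y₁ = -(k ^ 3 * y₂)) := by
      rintro ⟨e1, e2⟩
      apply h
      refine ⟨mul_left_cancel₀ hk2 (by linear_combination e1),
        mul_left_cancel₀ hk3 (by linear_combination e2)⟩
    obtain ⟨l', x', y', hn, hs', r1', r2', r3', r4'⟩ := add_rel (nonsing_map hk hA hB hC h₁)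
      (nonsing_map hk hA hB hC h₂) h'
    have hl : l' = k * l := by
      have t1 : k ^ 2 * ((l' - k * l) * (x₁ - x₂)) = 0 := by
        linear_combination r1' - k ^ 3 * r1
      have t2 : k ^ 3 * ((l' - k * l) * (y₁ + y₂)) = 0 := by
        subst hA hB
        linear_combination r2' - k ^ 4 * r2
      have t1' := (mul_eq_zero.1 t1).resolve_left hk2
      have t2' := (mul_eq_zero.1 t2).resolve_left hk3
      by_contra hne
      have hne' : l' - k * l ≠ 0 := sub_ne_zero.2 hne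
      apply h
      refine ⟨sub_eq_zero.1 ((mul_eq_zero.1 t1').resolve_left hne'), ?_⟩
      exact eq_neg_of_add_eq_zero_left ((mul_eq_zero.1 t2').resolve_left hne')
    have hx' : x' = k ^ 2 * x₃ + r := by
      rw [r3', r3, hl, hA]; ring
    have hy' : y' = k ^ 3 * y₃ := by
      rw [r4', r4, hl, hx']; ring
    rw [hs, hs']
    subst hx' hy'
    rfl

/-- K: change of variables -/
theorem transport {A B C k r A' B' C' : ℚ} (hk : k ≠ 0) (hA : A' = A * k ^ 2 - 3 * r)
    (hB : B' = B * k ^ 4 - 2 * r * A * k ^ 2 + 3 * r ^ 2)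
    (hC : C' = C * k ^ 6 - B * k ^ 4 * r + A * k ^ 2 * r ^ 2 - r ^ 3) :
    ∃ ψ : (Wc A B C).Point →+ (Wc A' B' C').Point, Function.Injective ψ := by
  refine ⟨AddMonoidHom.mk' (psi hk hA hB hC) (psi_add hk hA hB hC), ?_⟩
  intro P Q hPQ
  change psi hk hA hB hC P = psi hk hA hB hC Q at hPQ
  rcases P with _ | ⟨x₁, y₁, h₁⟩ <;> rcases Q with _ | ⟨x₂, y₂, h₂⟩
  · rfl
  · exact absurd hPQ.symm (Point.some_ne_zero _)
  · exact absurd hPQ (Point.some_ne_zero _)
  · change Point.some _ _ (nonsing_map hk hA hB hC h₁) =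
      Point.some _ _ (nonsing_map hk hA hB hC h₂) at hPQ
    rw [Point.some.injEq] at hPQ
    obtain ⟨e1, e2⟩ := hPQ
    have hx : x₁ = x₂ := mul_left_cancel₀ (pow_ne_zero 2 hk) (by linear_combination e1)
    have hy : y₁ = y₂ := mul_left_cancel₀ (pow_ne_zero 3 hk) e2
    subst hx hy
    rfl

end H25.Tw
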